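import Pool.Agent.H96.AL.Targets1

/-!
Bounds and regularity of `cc` (MP_c9ef16_gt, module CC).
-/

open Topology Set Filter Real

namespace Pool.Agent.H78.AL

open Pool.Agent.H96.AL

/-- bounds and regularity of `cc` -/
theorem cc : T_CC := by
  refine ⟨?_, ?_, ?_⟩
  · intro a b c ha hb h1 h2
    have hs : 0 < sinh a * sinh b := mul_pos (sinh_pos_iff.2 ha) (sinh_pos_iff.2 hb)
    have hc : 0 ≤ c := le_trans (abs_nonneg _) h1
    have e1 : cosh (a - b) ≤ cosh c := by
      rw [cosh_le_cosh, abs_of_nonneg hc]; exact h1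
    have e2 : cosh c ≤ cosh (a + b) := by
      rw [cosh_le_cosh, abs_of_nonneg hc, abs_of_nonneg (by linarith)]; exact h2
    rw [cosh_sub] at e1
    rw [cosh_add] at e2
    unfold Pool.Agent.H96.AL.cc
    constructor
    · rw [le_div_iff₀ hs]; linarith
    · rw [div_le_iff₀ hs]; linarith
  · intro a b c ha hb
    have hs : sinh a * sinh b ≠ 0 := (mul_pos (sinh_pos_iff.2 ha) (sinh_pos_iff.2 hb)).ne'
    unfold Pool.Agent.H96.AL.cc
    apply ContinuousAt.div
    · apply Continuous.continuousAt
      fun_prop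
    · apply Continuous.continuousAt
      fun_prop
    · exact hs
  · intro a b c c' ha hb hc hcc
    have hs : 0 < sinh a * sinh b := mul_pos (sinh_pos_iff.2 ha) (sinh_pos_iff.2 hb)
    have e1 : cosh c ≤ cosh c' := by
      rw [cosh_le_cosh, abs_of_nonneg hc, abs_of_nonneg (hc.trans hcc)]; exact hcc
    unfold Pool.Agent.H96.AL.cc
    apply div_le_div_of_nonneg_right _ hs.le
    linarith

end Pool.Agent.H78.AL
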