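import Pool.Agent.H96.AL.Targets1

/-!
Half of the squared distance is semiconcave (MP_c9ef16_gt, module SD).
-/

open Topology Set Filter Real

namespace Pool.Agent.H78.AL

open Pool.Agent.H96.AL

/-- half the squared distance is semiconcave -/
theorem sd (hQQ : T_QQ) : T_SD := by
  intro X _ D hSp q
  have hD : 0 ≤ D := le_trans zero_le_one hSp.one_le
  refine ⟨?_, ?_⟩
  · intro x y m t ht hx hy
    have h := hQQ X hSp.cb q x y m t D ht hx hy (hSp.diam q x) (hSp.diam q y)
    have e : (1 - t) * (dist q x ^ 2 / 2) + t * (dist q y ^ 2 / 2)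
        - cosh D / 2 * t * (1 - t) * dist x y ^ 2
        = ((1 - t) * dist q x ^ 2 + t * dist q y ^ 2
          - cosh D * t * (1 - t) * dist x y ^ 2) / 2 := by ring
    show (1 - t) * (dist q x ^ 2 / 2) + t * (dist q y ^ 2 / 2)
        - cosh D / 2 * t * (1 - t) * dist x y ^ 2 ≤ dist q m ^ 2 / 2
    rw [e]
    linarith
  · intro x y
    show |dist q x ^ 2 / 2 - dist q y ^ 2 / 2| ≤ D * dist x y
    have e : dist q x ^ 2 / 2 - dist q y ^ 2 / 2
        = (dist q x + dist q y) / 2 * (dist q x - dist q y) := by ring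
    have h1 : |dist q x - dist q y| ≤ dist x y := by
      have := abs_dist_sub_le x y q
      rwa [dist_comm x q, dist_comm y q] at this
    have h2 : (dist q x + dist q y) / 2 ≤ D := by
      have := hSp.diam q x
      have := hSp.diam q y
      linarith
    have h3 : 0 ≤ (dist q x + dist q y) / 2 := by
      have : 0 ≤ dist q x := dist_nonneg
      have : 0 ≤ dist q y := dist_nonneg
      linarith
    rw [e, abs_mul, abs_of_nonneg h3]
    exact mul_le_mul h2 h1 (abs_nonneg _) hD

end Pool.Agent.H78.AL
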